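import Mathlib

set_option autoImplicit false
open Filter Topology Metric Set

namespace Pool.Agent.H.MP_10e324_an

theorem minmod {g : ℂ → ℂ} {a w : ℂ} {ρ m : ℝ} (hρ : 0 < ρ) (hs : closedBall a ρ ⊆ ball 0 1)
    (hg : DifferentiableOn ℂ g (ball 0 1)) (h1 : ∀ z ∈ sphere a ρ, m ≤ ‖g z - w‖)
    (h2 : ‖g a - w‖ < m) : w ∈ g '' ball 0 1 := by
  by_contra hc
  have h3 : ∀ z ∈ ball (0 : ℂ) 1, g z - w ≠ 0 := fun z hz e => hc ⟨z, hz, sub_eq_zero.mp e⟩
  have h4 : DiffContOnCl ℂ (fun z => (g z - w)⁻¹) (ball a ρ) :=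
    (((hg.sub_const w).inv h3).mono (by rwa [closure_ball a hρ.ne'])).diffContOnCl
  have h5 := norm_pos_iff.mpr (h3 a (hs (mem_closedBall_self hρ.le)))
  have h6 := Complex.norm_le_of_forall_mem_frontier_norm_le isBounded_ball h4 (C := m⁻¹)
    (fun z hz => by
      rw [frontier_ball a hρ.ne'] at hz
      rw [norm_inv]
      exact inv_anti₀ (h5.trans h2) (h1 z hz)) (subset_closure (mem_ball_self hρ))
  rw [norm_inv, inv_le_inv₀ h5 (h5.trans h2)] at h6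
  linarith

theorem step {β : ℂ → ℂ} (hβ : AnalyticOnNhd ℂ β (ball 0 1))
    (hu : ∀ R : ℝ, ∃ a ∈ ball (0 : ℂ) 1, R < ‖β a‖) (n : ℕ) (s : (ℂ → ℂ) × ℝ) :
    ∃ t : (ℂ → ℂ) × ℝ, Differentiable ℂ s.1 → 0 < s.2 → Differentiable ℂ t.1 ∧ s.2 + 1 ≤ t.2 ∧
      (∀ w, ‖w‖ ≤ s.2 → ‖t.1 w - s.1 w‖ ≤ (1 / 2) ^ n) ∧
      ∀ g : ℂ → ℂ, DifferentiableOn ℂ g (ball 0 1) →
        (∀ z ∈ ball (0 : ℂ) 1, ‖β z‖ ≤ t.2 → ‖g z - t.1 (β z)‖ ≤ 3) →
        ∀ w : ℂ, ‖w‖ ≤ n → w ∈ g '' ball 0 1 := by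
  obtain ⟨Φ, R⟩ := s
  by_cases h : ¬ (Differentiable ℂ Φ ∧ 0 < R)
  · exact ⟨(Φ, R), fun h1 h2 => absurd ⟨h1, h2⟩ h⟩
  obtain ⟨h1, h2⟩ := not_not.mp h
  obtain ⟨a, ha, ha2⟩ := hu (2 * R + 1)
  have e1 : ∀ᶠ z in 𝓝[≠] a, β z ≠ β a := by
    refine ((hβ a ha).eventually_eq_or_eventually_ne analyticAt_const).resolve_left fun e => ?_
    have := hβ.eqOn_of_preconnected_of_eventuallyEq analyticOnNhd_const
      (convex_ball 0 1).isPreconnected ha e
    obtain ⟨b, hb, hb2⟩ := hu ‖β a‖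
    rw [this hb] at hb2
    exact lt_irrefl _ hb2
  have e2 : ∀ᶠ z in 𝓝 a, z ∈ ball (0 : ℂ) 1 ∧ dist (β z) (β a) < 1 ∧ (z ≠ a → β z ≠ β a) :=
    (isOpen_ball.eventually_mem ha).and ((Metric.tendsto_nhds.mp (hβ a ha).continuousAt 1
      one_pos).and (eventually_nhdsWithin_iff.mp e1))
  obtain ⟨ρ, hρ, e3⟩ := Metric.nhds_basis_closedBall.eventually_iff.mp e2
  have hs : closedBall a ρ ⊆ ball 0 1 := fun z hz => (e3 hz).1
  obtain ⟨z0, hz0, e4⟩ := (isCompact_sphere a ρ).exists_isMinOn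
    (NormedSpace.sphere_nonempty.mpr hρ.le) (f := fun z => ‖β z - β a‖)
    (((hβ.continuousOn.mono (sphere_subset_closedBall.trans hs)).sub continuousOn_const).norm)
  have e5 : 0 < ‖β z0 - β a‖ := norm_pos_iff.mpr (sub_ne_zero.mpr
    ((e3 (sphere_subset_closedBall hz0)).2.2 (ne_of_mem_sphere hz0 hρ.ne')))
  obtain ⟨C, hC⟩ := (isCompact_closedBall a ρ).exists_bound_of_continuousOn
    (h1.continuous.comp_continuousOn (hβ.continuousOn.mono hs))
  have C0 : 0 ≤ C := (norm_nonneg _).trans (hC a (mem_closedBall_self hρ.le))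
  obtain ⟨M, hM⟩ : ∃ M : ℝ, M = (2 * C + 7 + 2 * n) / ‖β z0 - β a‖ := ⟨_, rfl⟩
  have M0 : 0 < M := by rw [hM]; positivity
  obtain ⟨k, hk⟩ := exists_pow_lt_of_lt_one (x := (1 / 2) ^ n / (M * (R + ‖β a‖)))
    (by positivity) (y := 1 / 2) (by norm_num)
  refine ⟨(fun w => Φ w + M * (w - β a) * (w / (2 * R : ℝ)) ^ k, ‖β a‖ + 1), fun _ _ =>
    ⟨by fun_prop, by simp only; linarith, fun w hw => ?_, fun g hg hg2 w hw => ?_⟩⟩
  · simp only [add_sub_cancel_left, norm_mul, norm_pow, norm_div, Complex.norm_real,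
      Real.norm_eq_abs, abs_of_pos M0, abs_of_pos h2, abs_two] at hw ⊢
    rw [lt_div_iff₀ (by positivity)] at hk
    refine le_trans ?_ hk.le
    rw [mul_comm ((1 / 2 : ℝ) ^ k)]
    refine mul_le_mul (mul_le_mul_of_nonneg_left ((norm_sub_le _ _).trans (by linarith)) M0.le)
      (pow_le_pow_left₀ (by positivity) ?_ k) (by positivity) (by positivity)
    rw [div_le_iff₀ (by positivity)]
    linarith
  · have e6 : ∀ z ∈ closedBall a ρ, ‖β z‖ ≤ ‖β a‖ + 1 ∧ 2 * R ≤ ‖β z‖ := fun z hz => by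
      have := (e3 hz).2.1
      rw [dist_eq_norm] at this
      constructor <;> linarith [norm_sub_norm_le (β z) (β a), norm_sub_norm_le (β a) (β z),
        norm_sub_rev (β a) (β z)]
    refine minmod hρ hs hg (m := C + 4 + n) (fun z hz => ?_) ?_
    · have hz' := sphere_subset_closedBall hz
      have b1 := hg2 z (hs hz') (e6 z hz').1
      have b2 : 2 * C + 7 + 2 * n ≤ ‖M * (β z - β a) * (β z / (2 * R : ℝ)) ^ k‖ := by
        rw [norm_mul, norm_mul, norm_pow, norm_div, Complex.norm_real, Complex.norm_real,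
          Real.norm_of_nonneg M0.le, Real.norm_of_nonneg (by positivity)]
        have b3 : 1 ≤ (‖β z‖ / (2 * R)) ^ k :=
          one_le_pow₀ ((one_le_div (by positivity)).mpr (e6 z hz').2)
        have b4 : M * ‖β z0 - β a‖ ≤ M * ‖β z - β a‖ := mul_le_mul_of_nonneg_left (e4 hz) M0.le
        rw [hM, div_mul_cancel₀ _ e5.ne', ← hM] at b4
        nlinarith [mul_nonneg M0.le (norm_nonneg (β z - β a))]
      have b5 := hC z hz'
      simp only [Function.comp] at b1 b5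
      generalize (M * (β z - β a) * (β z / (2 * R : ℝ)) ^ k : ℂ) = P at b1 b2
      have b6 : P = (g z - w) - (g z - (Φ (β z) + P)) + w - Φ (β z) := by ring
      have b7 := norm_sub_le ((g z - w) - (g z - (Φ (β z) + P)) + w) (Φ (β z))
      rw [← b6] at b7
      linarith [norm_add_le ((g z - w) - (g z - (Φ (β z) + P))) w,
        norm_sub_le (g z - w) (g z - (Φ (β z) + P))]
    · have hz' := mem_closedBall_self (x := a) hρ.le
      have b1 := hg2 a ha (by simp)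
      have b5 := hC a hz'
      simp only [Function.comp, sub_self, mul_zero, zero_mul, add_zero] at b1 b5
      linarith [norm_sub_le (g a) w, norm_sub_norm_le (g a) (Φ (β a))]

theorem onto {β : ℂ → ℂ} (hβ : AnalyticOnNhd ℂ β (ball 0 1))
    (hu : ∀ R : ℝ, ∃ a ∈ ball (0 : ℂ) 1, R < ‖β a‖) :
    ∃ Φ : ℂ → ℂ, Differentiable ℂ Φ ∧ ∀ w, w ∈ (fun z => Φ (β z) + z) '' ball 0 1 := by
  choose nx h using step hβ hu
  obtain ⟨s, s0, s1⟩ : ∃ s : ℕ → (ℂ → ℂ) × ℝ, s 0 = (0, 1) ∧ ∀ k, s (k + 1) = nx k (s k) :=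
    ⟨fun n => Nat.rec (0, 1) nx n, rfl, fun _ => rfl⟩
  have p0 : ∀ k, Differentiable ℂ (s k).1 ∧ (k : ℝ) + 1 ≤ (s k).2 := fun k => by
    induction k with
    | zero => rw [s0]; exact ⟨differentiable_const 0, by simp⟩
    | succ k ih =>
      have := h k _ ih.1 (lt_of_lt_of_le (by positivity) ih.2)
      rw [s1]
      exact ⟨this.1, by push_cast; linarith [this.2.1, ih.2]⟩
  have h2 := fun k => (h k _ (p0 k).1 (lt_of_lt_of_le (by positivity) (p0 k).2)).2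
  simp only [← s1] at h2
  have p1 : Monotone fun k => (s k).2 := monotone_nat_of_le_succ fun k => by linarith [(h2 k).1]
  have p2 : ∀ N i w, ‖w‖ ≤ (s N).2 → ‖(s (i + N + 1)).1 w - (s (i + N)).1 w‖ ≤ (1 / 2) ^ i :=
    fun N i w hw => ((h2 _).2.1 w (hw.trans (p1 (by omega)))).trans
      (pow_le_pow_of_le_one (by norm_num) (by norm_num) (by omega))
  have p3 : ∀ N w, ‖w‖ ≤ (s N).2 → ∑' i, ((s (i + 1)).1 w - (s i).1 w) =
      (s N).1 w + ∑' i, ((s (i + N + 1)).1 w - (s (i + N)).1 w) := fun N w hw => by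
    rw [← Summable.sum_add_tsum_nat_add N ((summable_nat_add_iff N).mp
      (Summable.of_norm_bounded summable_geometric_two fun i => p2 N i w hw)),
      Finset.sum_range_sub fun i => (s i).1 w, s0]
    simp
  have p4 : Differentiable ℂ fun w => ∑' i, ((s (i + 1)).1 w - (s i).1 w) := fun w => by
    obtain ⟨N, hN⟩ := exists_nat_gt ‖w‖
    have b1 : ∀ v ∈ ball (0 : ℂ) N, ‖v‖ ≤ (s N).2 := fun v hv => by
      linarith [mem_ball_zero_iff.mp hv, (p0 N).2]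
    refine ((((p0 N).1.differentiableOn.add (Complex.differentiableOn_tsum_of_summable_norm
      summable_geometric_two (fun i => ((p0 _).1.sub (p0 _).1).differentiableOn) isOpen_ball
      fun i v hv => p2 N i v (b1 v hv))).congr fun v hv => p3 N v (b1 v hv))).differentiableAt
      (isOpen_ball.mem_nhds (mem_ball_zero_iff.mpr hN))
  refine ⟨_, p4, fun w => ?_⟩
  obtain ⟨N, hN⟩ := exists_nat_ge ‖w‖
  refine (h2 N).2.2 _ ((p4.comp_differentiableOn hβ.differentiableOn).add differentiableOn_id)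
    (fun z hz hz2 => ?_) w hN
  have b1 := tsum_of_norm_bounded hasSum_geometric_two fun i => p2 (N + 1) i _ hz2
  simp only [Function.comp, Pi.add_apply, id]
  rw [p3 _ _ hz2, add_right_comm, add_assoc, add_sub_cancel_left]
  linarith [norm_add_le z (∑' i, ((s (i + (N + 1) + 1)).1 (β z) - (s (i + (N + 1))).1 (β z))),
    mem_ball_zero_iff.mp hz]

theorem beta {α : ℂ → ℂ} (hα : AnalyticOnNhd ℂ α (ball 0 1))
    (hn : ∃ a ∈ ball (0 : ℂ) 1, ∃ b ∈ ball (0 : ℂ) 1, α a ≠ α b) :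
    ∃ ψ : ℂ → ℂ, DifferentiableOn ℂ ψ (α '' ball 0 1) ∧
      ∀ R : ℝ, ∃ a ∈ ball (0 : ℂ) 1, R < ‖ψ (α a)‖ := by
  by_cases h : α '' ball 0 1 = univ
  · refine ⟨id, differentiableOn_id, fun R => ?_⟩
    obtain ⟨a, ha, e⟩ : ((|R| + 1 : ℝ) : ℂ) ∈ α '' ball 0 1 := h ▸ mem_univ _
    refine ⟨a, ha, ?_⟩
    rw [e, id, Complex.norm_real, Real.norm_of_nonneg (by positivity)]
    linarith [le_abs_self R]
  have ho : IsOpen (α '' ball 0 1) := by
    obtain ⟨a, ha, b, hb, e⟩ := hn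
    exact (hα.is_constant_or_isOpen (convex_ball 0 1).isPreconnected).resolve_left
      (fun ⟨w, hw⟩ => e ((hw a ha).trans (hw b hb).symm)) _ subset_rfl isOpen_ball
  obtain ⟨p, hp⟩ := nonempty_frontier_iff.mpr
    ⟨⟨_, mem_image_of_mem α (mem_ball_self one_pos)⟩, h⟩
  rw [ho.frontier_eq] at hp
  have e1 : ∀ w ∈ α '' ball 0 1, w - p ≠ 0 := fun w hw e => hp.2 (sub_eq_zero.mp e ▸ hw)
  refine ⟨fun w => (w - p)⁻¹, (differentiableOn_id.sub_const p).inv e1, fun R => ?_⟩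
  obtain ⟨_, ⟨a, ha, rfl⟩, e⟩ := Metric.mem_closure_iff.mp hp.1 (|R| + 1)⁻¹ (by positivity)
  refine ⟨a, ha, ?_⟩
  have e2 := norm_pos_iff.mpr (e1 _ (mem_image_of_mem α ha))
  rw [dist_comm, dist_eq_norm, lt_inv_comm₀ e2 (by positivity)] at e
  rw [norm_inv]
  linarith [le_abs_self R]

theorem inv_an {α : ℂ → ℂ} (hα : AnalyticOnNhd ℂ α (ball 0 1))
    (hn : ∃ a ∈ ball (0 : ℂ) 1, ∃ b ∈ ball (0 : ℂ) 1, α a ≠ α b) (hi : InjOn α (ball 0 1)) :
    AnalyticOnNhd ℂ (Function.invFunOn α (ball 0 1)) (α '' ball 0 1) := by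
  obtain ⟨a, ha, b, hb, e⟩ := hn
  have e0 : ∀ z ∈ ball (0 : ℂ) 1, Function.invFunOn α (ball 0 1) (α z) = z := hi.leftInvOn_invFunOn
  have e1 : ∀ z ∈ ball (0 : ℂ) 1, 𝓝 (α z) ≤ map α (𝓝 z) := fun z hz =>
    (hα z hz).eventually_constant_or_nhds_le_map_nhds.resolve_left fun h => by
      have := hα.eqOn_of_preconnected_of_eventuallyEq analyticOnNhd_const
        (convex_ball 0 1).isPreconnected hz h
      exact e ((this ha).trans (this hb).symm)
  have e2 : ∀ z ∈ ball (0 : ℂ) 1, Tendsto (Function.invFunOn α (ball 0 1)) (𝓝 (α z)) (𝓝 z) :=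
    fun z hz => (tendsto_map'_iff.mpr (tendsto_id.congr'
      ((isOpen_ball.eventually_mem hz).mono fun y hy => (e0 y hy).symm))).mono_left (e1 z hz)
  have e3 : ∀ z ∈ ball (0 : ℂ) 1, ∀ᶠ y in 𝓝 (α z), y ∈ α '' ball 0 1 := fun z hz =>
    e1 z hz (image_mem_map (isOpen_ball.mem_nhds hz))
  have e4 : ∀ z ∈ ball (0 : ℂ) 1, ContinuousAt (Function.invFunOn α (ball 0 1)) (α z) :=
    fun z hz => by rw [ContinuousAt, e0 z hz]; exact e2 z hz
  rintro _ ⟨z, hz, rfl⟩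
  refine Complex.analyticAt_of_differentiable_on_punctured_nhds_of_continuousAt ?_ (e4 z hz)
  have e5 : ∀ᶠ y in 𝓝[≠] z, deriv α y ≠ 0 :=
    (hα z hz).deriv.eventually_eq_zero_or_eventually_ne_zero.resolve_left fun h =>
      e (isOpen_ball.is_const_of_deriv_eq_zero (convex_ball 0 1).isPreconnected hα.differentiableOn
        (hα.deriv.eqOn_zero_of_preconnected_of_eventuallyEq_zero
          (convex_ball 0 1).isPreconnected hz h) ha hb)
  filter_upwards [self_mem_nhdsWithin, mem_nhdsWithin_of_mem_nhds (e3 z hz),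
    mem_nhdsWithin_of_mem_nhds ((e2 z hz).eventually (eventually_nhdsWithin_iff.mp e5))]
  rintro _ h1 ⟨y, hy, rfl⟩ h2
  rw [e0 y hy] at h2
  refine (HasDerivAt.of_local_left_inverse (f := α) (e4 y hy) ?_ (h2 fun e => h1 (congrArg α e))
    ((e3 y hy).mono ?_)).differentiableAt
  · rw [e0 y hy]; exact (hα y hy).differentiableAt.hasDerivAt
  · rintro _ ⟨x, hx, rfl⟩
    rw [e0 x hx]

end Pool.Agent.H.MP_10e324_an
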